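import Pool.Agent.Helper60.Plz.Defs

set_option autoImplicit false

namespace Pool.Agent.Helper50.Plz

open Pool.Agent.Helper60.Plz

/-- One end of `x` is in `A` and the other end is in `B`. -/
def Bridge {X U : Type} (p q : X → U) (S : Set X) (A B : Set U) (x : X) : Prop :=
  x ∈ S ∧ ((p x ∈ A ∧ q x ∈ B) ∨ (p x ∈ B ∧ q x ∈ A))

/-- `u` is an end of `x`. -/
def IsEnd {X U : Type} (p q : X → U) (x : X) (u : U) : Prop := p x = u ∨ q x = u

theorem fin5_pairs : ∀ i j : Fin 5, i ≠ j → (j = i + 1 ∨ j = i + 2) ∨ (i = j + 1 ∨ i = j + 2) := by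
  decide

theorem fin5_excl : ∀ i j : Fin 5, (j = i + 1 ∨ j = i + 2) → (i = j + 1 ∨ i = j + 2) → False := by
  decide

theorem fin5_ne1 : ∀ i : Fin 5, i ≠ i + 1 := by decide

theorem fin5_ne2 : ∀ i : Fin 5, i ≠ i + 2 := by decide

theorem packetF : GoalF := by
  classical
  intro X U p q G S hpq hG f hconn hdisj hadj
  have huniq : ∀ i j u, u ∈ f i → u ∈ f j → i = j := by
    intro i j u hi hj
    by_contra hne
    exact Set.disjoint_left.1 (hdisj i j hne) hi hj
  have hb : ∀ i j, i ≠ j → ∃ x, Bridge p q S (f i) (f j) x := by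
    intro i j hij
    obtain ⟨u, hu, v, hv, -, x, hx, h⟩ := hadj i j hij
    refine ⟨x, hx, ?_⟩
    rcases h with ⟨h1, h2⟩ | ⟨h1, h2⟩
    · left
      rw [h1, h2]
      exact ⟨hu, hv⟩
    · right
      rw [h1, h2]
      exact ⟨hv, hu⟩
  obtain ⟨x0, -⟩ := hb 0 1 (by decide)
  have : Nonempty X := ⟨x0⟩
  choose! e he using hb
  have hshare : ∀ x y u, x ≠ y → IsEnd p q x u → IsEnd p q y u → G.Adj x y := by
    intro x y u hne hx hy
    apply hG x y hne
    rcases hx with hx | hx <;> rcases hy with hy | hy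
    · exact Or.inl (hx.trans hy.symm)
    · exact Or.inr (Or.inl (hx.trans hy.symm))
    · exact Or.inr (Or.inr (Or.inl (hx.trans hy.symm)))
    · exact Or.inr (Or.inr (Or.inr (hx.trans hy.symm)))
  let T : Fin 5 → Set S := fun i =>
    {x | (p x.1 ∈ f i ∧ q x.1 ∈ f i) ∨ ∃ j, (j = i + 1 ∨ j = i + 2) ∧ x.1 = e i j}
  have hne' : ∀ i j : Fin 5, (j = i + 1 ∨ j = i + 2) → i ≠ j := by
    intro i j h
    rcases h with h | h
    · rw [h]; exact fin5_ne1 i
    · rw [h]; exact fin5_ne2 i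
  have hend : ∀ i (x : S), x ∈ T i → ∃ u ∈ f i, IsEnd p q x.1 u := by
    intro i x hx
    rcases hx with hx | ⟨j, hj, hx⟩
    · exact ⟨_, hx.1, Or.inl rfl⟩
    · have h1 := he i j (hne' i j hj)
      rw [← hx] at h1
      rcases h1.2 with h | h
      · exact ⟨_, h.1, Or.inl rfl⟩
      · exact ⟨_, h.2, Or.inr rfl⟩
  have hTdisj : ∀ i j, i ≠ j → Disjoint (T i) (T j) := by
    intro i j hij
    rw [Set.disjoint_left]
    intro x hxi hxj
    rcases hxi with hxi | ⟨a, ha, hxa⟩
    · obtain ⟨u, hu, hu'⟩ := hend j x hxj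
      rcases hu' with h | h
      · rw [← h] at hu
        exact hij (huniq _ _ _ hxi.1 hu)
      · rw [← h] at hu
        exact hij (huniq _ _ _ hxi.2 hu)
    · rcases hxj with hxj | ⟨b, hb, hxb⟩
      · obtain ⟨u, hu, hu'⟩ := hend i x (Or.inr ⟨a, ha, hxa⟩)
        rcases hu' with h | h
        · rw [← h] at hu
          exact hij (huniq _ _ _ hu hxj.1)
        · rw [← h] at hu
          exact hij (huniq _ _ _ hu hxj.2)
      · have h1 := (he i a (hne' i a ha)).2
        have h2 := (he j b (hne' j b hb)).2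
        rw [← hxa] at h1
        rw [← hxb] at h2
        have h3 : i = b ∧ a = j := by
          rcases h1 with h1 | h1 <;> rcases h2 with h2 | h2
          · exact absurd (huniq _ _ _ h1.1 h2.1) hij
          · exact ⟨huniq _ _ _ h1.1 h2.1, huniq _ _ _ h1.2 h2.2⟩
          · exact ⟨huniq _ _ _ h1.2 h2.2, huniq _ _ _ h1.1 h2.1⟩
          · exact absurd (huniq _ _ _ h1.2 h2.2) hij
        obtain ⟨h4, h5⟩ := h3
        subst h4
        subst h5
        exact fin5_excl _ _ ha hb
  have hwalk : ∀ i (u u' : f i) (w : ((endGraph p q S).induce (f i)).Walk u u') (x x' : T i),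
      IsEnd p q x.1.1 u.1 → IsEnd p q x'.1.1 u'.1 →
      ((G.induce S).induce (T i)).Reachable x x' := by
    intro i u u' w
    induction w with
    | nil =>
      intro x x' hx hx'
      by_cases hxx : x = x'
      · rw [hxx]
      · refine SimpleGraph.Adj.reachable ?_
        simp only [SimpleGraph.comap_adj, Function.Embedding.subtype_apply]
        refine hshare _ _ _ ?_ hx hx'
        intro h
        exact hxx (Subtype.ext (Subtype.ext h))
    | @cons u v w' hadj' _ ih =>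
      intro x x' hx hx'
      simp only [SimpleGraph.comap_adj, Function.Embedding.subtype_apply] at hadj'
      obtain ⟨-, s, hs, hs'⟩ := hadj'
      have hsT : (⟨s, hs⟩ : S) ∈ T i := by
        left
        rcases hs' with h | h
        · exact ⟨h.1 ▸ u.2, h.2 ▸ v.2⟩
        · exact ⟨h.1 ▸ v.2, h.2 ▸ u.2⟩
      have hsu : IsEnd p q s u.1 := by
        rcases hs' with h | h
        · exact Or.inl h.1
        · exact Or.inr h.2
      have hsv : IsEnd p q s v.1 := by
        rcases hs' with h | h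
        · exact Or.inr h.2
        · exact Or.inl h.1
      refine SimpleGraph.Reachable.trans (v := ⟨⟨s, hs⟩, hsT⟩) ?_ (ih _ x' hsv hx')
      by_cases hxx : x = ⟨⟨s, hs⟩, hsT⟩
      · rw [hxx]
      · refine SimpleGraph.Adj.reachable ?_
        simp only [SimpleGraph.comap_adj, Function.Embedding.subtype_apply]
        refine hshare _ _ _ ?_ hx hsu
        intro h
        exact hxx (Subtype.ext (Subtype.ext h))
  have hcore : ∀ i j : Fin 5, (j = i + 1 ∨ j = i + 2) →
      ∃ x ∈ T i, ∃ y ∈ T j, (G.induce S).Adj x y := by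
    intro i j hij
    have hb1 := he i j (hne' i j hij)
    have hxT : (⟨e i j, hb1.1⟩ : S) ∈ T i := Or.inr ⟨j, hij, rfl⟩
    have hw : ∃ w ∈ f j, IsEnd p q (e i j) w := by
      rcases hb1.2 with h | h
      · exact ⟨_, h.2, Or.inr rfl⟩
      · exact ⟨_, h.1, Or.inl rfl⟩
    obtain ⟨w, hw, hwx⟩ := hw
    have hb2 := he j (j + 1) (fin5_ne1 j)
    have hyT : (⟨e j (j + 1), hb2.1⟩ : S) ∈ T j := Or.inr ⟨j + 1, Or.inl rfl, rfl⟩
    obtain ⟨w', hw', hwy⟩ := hend j _ hyT
    have hfin : ∀ s : S, s ∈ T j → IsEnd p q s.1 w →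
        ∃ x ∈ T i, ∃ y ∈ T j, (G.induce S).Adj x y := by
      intro s hsT hsw
      refine ⟨_, hxT, s, hsT, ?_⟩
      simp only [SimpleGraph.comap_adj, Function.Embedding.subtype_apply]
      refine hshare _ _ _ ?_ hwx hsw
      intro h
      have h1 : (⟨e i j, hb1.1⟩ : S) = s := Subtype.ext h
      exact Set.disjoint_left.1 (hTdisj i j (hne' i j hij)) hxT (h1 ▸ hsT)
    obtain ⟨wk⟩ := (hconn j).preconnected ⟨w, hw⟩ ⟨w', hw'⟩
    generalize hA : (⟨w, hw⟩ : f j) = A at wk
    generalize hB : (⟨w', hw'⟩ : f j) = B at wk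
    cases wk with
    | nil =>
      have : w' = w := congrArg Subtype.val (hB.trans hA.symm)
      rw [this] at hwy
      exact hfin _ hyT hwy
    | @cons _ v _ hadj' _ =>
      rw [← hA] at hadj'
      simp only [SimpleGraph.comap_adj, Function.Embedding.subtype_apply] at hadj'
      obtain ⟨-, s, hs, hs'⟩ := hadj'
      refine hfin ⟨s, hs⟩ ?_ ?_
      · left
        rcases hs' with h | h
        · exact ⟨h.1 ▸ hw, h.2 ▸ v.2⟩
        · exact ⟨h.1 ▸ v.2, h.2 ▸ hw⟩
      · rcases hs' with h | h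
        · exact Or.inl h.1
        · exact Or.inr h.2
  refine ⟨T, ?_, hTdisj, ?_⟩
  · intro i
    have hb2 := he i (i + 1) (fin5_ne1 i)
    have hyT : (⟨e i (i + 1), hb2.1⟩ : S) ∈ T i := Or.inr ⟨i + 1, Or.inl rfl, rfl⟩
    have : Nonempty (T i) := ⟨⟨_, hyT⟩⟩
    refine SimpleGraph.Connected.mk ?_
    intro x x'
    obtain ⟨u, hu, hxu⟩ := hend i x.1 x.2
    obtain ⟨u', hu', hxu'⟩ := hend i x'.1 x'.2
    obtain ⟨wk⟩ := (hconn i).preconnected ⟨u, hu⟩ ⟨u', hu'⟩
    exact hwalk i _ _ wk x x' hxu hxu'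
  · intro i j hij
    rw [SimpleGraph.top_adj] at hij
    rcases fin5_pairs i j hij with h | h
    · exact hcore i j h
    · obtain ⟨y, hy, x, hx, hyx⟩ := hcore j i h
      exact ⟨x, hx, y, hy, hyx.symm⟩

end Pool.Agent.Helper50.Plz
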